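import Pool.Agent.H60.EC.Act
import Pool.Agent.H60.EC.Der
import Pool.Agent.H60.EC.Metab

set_option autoImplicit false
set_option linter.unusedSectionVars false

/-!
# The class of `H = ⋂ [G,v]` for regular elementary abelian groups of automorphisms: all ranks and
all derived lengths

`V` is elementary abelian of order `p ^ n`, `n ≥ 2`, acting on the finite group `G` without
nontrivial fixed points, and `H` is the intersection of the subgroups `[G,v]`, `v ≠ 1`
(definitions `commWith`, `interH` in `Pool/Agent/H60/EC/Ring.lean`).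

* For `p` odd, every `n ≥ 2` and every `d ≥ 3` the class of `H` is unbounded on the groups `G` of
  derived length exactly `d`; so there is no function `f(p,n,d)` for any of these triples.
* For `d ≤ 2` and `n ≥ 2` (all `p`) the subgroup `H` is abelian, because `H` always lies in the
  derived subgroup of `G`.

The groups.  Let `k` be a finite field of characteristic `2` with a primitive `p`-th root of unity,
`A = k[t_i, x_j]/(t_i^2, x_j^2)` with `n - 1` variables `x_j`.  The group `Q` of triples
`(a, b, C)` (`a, b` families of `n - 1` vectors, `C` a matrix) acts on `A` by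
`m ↦ ∏(1 + C_{ij} t_i t_j) ∏(1 + T(b_j) x_j) m(x_j + T(a_j))`, and `V`, the group of `n`-tuples
`(l, u_1, ..., u_{n-1})` of `p`-th roots of unity, scales `t_i` by `l`, `x_j` by `u_j` and `A` by
`∏ u_j`.  For larger derived lengths one takes the direct product with a congruence subgroup of
`SL_p(k[s_1, ..., s_N]/(s_i^2))`, `N = 2 ^ (d - 1)`, on which a quotient `C_p × C_p` of `V` acts by
the cyclic shift and the diagonal matrix of the powers of a `p`-th root of unity.
-/

namespace Pool.Agent.Results.MP_e56c9f_al.EveryRank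

open Pool.Agent.H60.EC
open scoped commutatorElement

section product
variable {G K V : Type} [Group G] [Group K] [CommGroup V] [MulDistribMulAction V G]
  [MulDistribMulAction V K]

lemma commWith_inl (v : V) (x : G) (hx : x ∈ commWith G V v) :
    ((x, 1) : G × K) ∈ commWith (G × K) V v := by
  unfold commWith at hx ⊢
  induction hx using Subgroup.closure_induction with
  | mem x hx =>
    obtain ⟨g, rfl⟩ := hx
    refine Subgroup.subset_closure ⟨(g, 1), ?_⟩
    refine Prod.ext rfl ?_
    change (1 : K) = 1⁻¹ * (v • (1 : K))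
    rw [smul_one, inv_one, one_mul]
  | one => exact one_mem _
  | mul x y _ _ hx hy =>
    have := mul_mem hx hy
    simpa using this
  | inv x _ hx =>
    have := inv_mem hx
    simpa using this

lemma interH_inl (x : G) (hx : x ∈ interH G V) : ((x, 1) : G × K) ∈ interH (G × K) V := by
  unfold interH at hx ⊢
  simp only [Subgroup.mem_iInf] at hx ⊢
  intro v hv
  exact commWith_inl v x (hx v hv)

lemma lcs_inl (m : ℕ) : ((interH G V).lowerCentralSeries m).map (MonoidHom.inl G K) ≤
    (interH (G × K) V).lowerCentralSeries m := by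
  have h0 : (interH G V).map (MonoidHom.inl G K) ≤ interH (G × K) V := by
    rintro _ ⟨x, hx, rfl⟩
    exact interH_inl x hx
  induction m with
  | zero =>
    rw [Subgroup.lowerCentralSeries_zero, Subgroup.lowerCentralSeries_zero]
    exact h0
  | succ m ih =>
    rw [Subgroup.lowerCentralSeries_succ, Subgroup.lowerCentralSeries_succ,
      Subgroup.map_commutator]
    exact Subgroup.commutator_mono ih h0

lemma derived_prod_bot (d : ℕ) (h1 : derivedSeries G d = ⊥) (h2 : derivedSeries K d = ⊥) :
    derivedSeries (G × K) d = ⊥ := by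
  rw [eq_bot_iff]
  rintro ⟨x, y⟩ hxy
  have e1 : x ∈ derivedSeries G d := by
    have := map_derivedSeries_le_derivedSeries (MonoidHom.fst G K) d
    exact this ⟨_, hxy, rfl⟩
  have e2 : y ∈ derivedSeries K d := by
    have := map_derivedSeries_le_derivedSeries (MonoidHom.snd G K) d
    exact this ⟨_, hxy, rfl⟩
  rw [h1, Subgroup.mem_bot] at e1
  rw [h2, Subgroup.mem_bot] at e2
  rw [Subgroup.mem_bot, e1, e2]
  rfl

lemma derived_prod_ne (d : ℕ) (h2 : derivedSeries K d ≠ ⊥) :
    derivedSeries (G × K) d ≠ ⊥ := by
  intro h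
  apply h2
  rw [eq_bot_iff]
  intro y hy
  have := map_derivedSeries_le_derivedSeries (MonoidHom.inr G K) d
  have h3 := this ⟨y, hy, rfl⟩
  rw [h, Subgroup.mem_bot] at h3
  exact congrArg Prod.snd h3

lemma isPGroup_prod (p : ℕ) (h1 : IsPGroup p G) (h2 : IsPGroup p K) : IsPGroup p (G × K) := by
  rintro ⟨x, y⟩
  obtain ⟨a, ha⟩ := h1 x
  obtain ⟨b, hb⟩ := h2 y
  refine ⟨a + b, ?_⟩
  refine Prod.ext ?_ ?_
  · change x ^ p ^ (a + b) = 1
    rw [pow_add, pow_mul, ha, one_pow]
  · change y ^ p ^ (a + b) = 1
    rw [add_comm, pow_add, pow_mul, hb, one_pow]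

end product

/-- the projection of the group `V` on a quotient `C_p × C_p` -/
noncomputable def psi {p : ℕ} {k J : Type} [Field k]
    (φ : ↥(rootsOfUnity p k) ≃* Multiplicative (ZMod p)) (j : J) : VV p k J →* WW p k :=
  MonoidHom.prod (φ.toMonoidHom.comp (MonoidHom.fst _ _))
    ((Pi.evalMonoidHom (fun _ : J => ↥(rootsOfUnity p k)) j).comp (MonoidHom.snd _ _))

lemma psi_surj {p : ℕ} {k J : Type} [Field k]
    (φ : ↥(rootsOfUnity p k) ≃* Multiplicative (ZMod p)) (j : J) :
    Function.Surjective (psi φ j) := by
  rintro ⟨s, u⟩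
  refine ⟨(φ.symm s, fun _ => u), ?_⟩
  refine Prod.ext ?_ rfl
  change φ (φ.symm s) = s
  simp

/-- **Main theorem.** (1) For every odd prime `p`, all `n ≥ 2`, `d ≥ 3` and every `c` there is a
finite group `G` (a `2`-group) of derived length exactly `d` with a faithful regular action of an
elementary abelian group `V` of order `p ^ n` such that the intersection `H` of the subgroups
`[G,v]`, `v ≠ 1`, is nilpotent of class larger than `c`.  (2) For every prime `p` and `n ≥ 2`, if an
elementary abelian group `V` of order `p ^ n` acts regularly on a finite group `G`, then `H` lies in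
the derived subgroup of `G`; in particular `H` is abelian if `G` has derived length at most `2`. -/
theorem result :
    (∀ p : ℕ, p.Prime → p ≠ 2 → ∀ n : ℕ, 2 ≤ n → ∀ d : ℕ, 3 ≤ d → ∀ c : ℕ,
      ∃ (G : Type) (_ : Group G) (_ : Finite G) (V : Type) (_ : CommGroup V)
        (_ : MulDistribMulAction V G),
        Nat.card V = p ^ n ∧ (∀ v : V, v ^ p = 1) ∧
        (∀ v : V, (∀ g : G, v • g = g) → v = 1) ∧
        (∀ g : G, (∀ v : V, v • g = g) → g = 1) ∧
        IsPGroup 2 G ∧ derivedSeries G d = ⊥ ∧ derivedSeries G (d - 1) ≠ ⊥ ∧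
        Group.IsNilpotent (interH G V) ∧ c < Group.nilpotencyClass (interH G V)) ∧
    (∀ p : ℕ, p.Prime → ∀ n : ℕ, 2 ≤ n →
      ∀ (G : Type) [Group G] [Finite G] (V : Type) [CommGroup V] [MulDistribMulAction V G],
        Nat.card V = p ^ n → (∀ v : V, v ^ p = 1) → (∀ g : G, (∀ v : V, v • g = g) → g = 1) →
        interH G V ≤ commutator G ∧
        (derivedSeries G 2 = ⊥ → ∀ x ∈ interH G V, ∀ y ∈ interH G V, x * y = y * x)) := by
  refine ⟨?_, ?_⟩
  · intro p hp hp2 n hn d hd c
    have : Fact (Nat.Prime 2) := ⟨Nat.prime_two⟩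
    have : Fact p.Prime := ⟨hp⟩
    have : NeZero p := ⟨hp.ne_zero⟩
    -- the field
    have hp1 : p - 1 ≠ 0 := by have := hp.two_le; omega
    let k := GaloisField 2 (p - 1)
    have : Finite k := Nat.finite_of_card_ne_zero (by
      rw [GaloisField.card 2 (p - 1) hp1]; positivity)
    obtain ⟨w, hw⟩ : ∃ w : kˣ, IsPrimitiveRoot w p := by
      have : Fintype kˣ := Fintype.ofFinite _
      have hcard : p ∣ Fintype.card kˣ := by
        rw [← Nat.card_eq_fintype_card, Nat.card_units, GaloisField.card 2 (p - 1) hp1]
        have hcop : Nat.Coprime 2 p := by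
          rw [Nat.coprime_primes Nat.prime_two hp]
          exact fun h => hp2 h.symm
        have h1 := Nat.ModEq.pow_totient hcop
        rw [Nat.totient_prime hp] at h1
        exact (Nat.modEq_iff_dvd' (Nat.one_le_pow _ _ (by norm_num))).mp h1.symm
      obtain ⟨w, hw⟩ := exists_prime_orderOf_dvd_card p hcard
      have h2 := IsPrimitiveRoot.orderOf w
      rw [hw] at h2
      exact ⟨w, h2⟩
    have hw' : IsPrimitiveRoot (w : k) p := by
      rwa [IsPrimitiveRoot.coe_units_iff]
    let J := Fin (n - 1)
    let j0 : J := ⟨0, by omega⟩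
    have : Nonempty J := ⟨j0⟩
    let ι := Fin (c + 2) × Bool
    have : Nonempty ι := ⟨((0 : Fin (c + 2)), true)⟩
    let S : Sys k (TR k (ι ⊕ J)) ι J := trSys k ι J
    have hS : ∏ x, S.t x ≠ 0 := trSys_prod k ι J
    have hfin1 : Finite (GG S) := GG.finite_GG
    let N := 2 ^ (d - 1)
    let K := ↥(cg p (mm k N))
    have hfin3 : Finite (Matrix.SpecialLinearGroup (ZMod p) (TR k (Fin N))) := by
      have : Finite (Matrix (ZMod p) (ZMod p) (TR k (Fin N))) := by
        unfold Matrix; infer_instance
      exact Subtype.finite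
    have hfin2 : Finite K := inferInstance
    have hmu : Nat.card ↥(rootsOfUnity p k) = p := hw'.card_rootsOfUnity
    have hzm : Nat.card (Multiplicative (ZMod p)) = p := by
      rw [Nat.card_congr Multiplicative.toAdd, Nat.card_zmod]
    let φ : ↥(rootsOfUnity p k) ≃* Multiplicative (ZMod p) := mulEquivOfPrimeCardEq hmu hzm
    letI actV : MulDistribMulAction (VV p k J) K := MulDistribMulAction.compHom K (psi φ j0)
    have hpow := mm_pow k N
    have hP1 : IsPGroup 2 (GG S) := GG.isPGroup
    have hP2 : IsPGroup 2 K := isPGroupK (k := k) (mm k N) (N + 1) hpow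
    have hP : IsPGroup 2 (GG S × K) := isPGroup_prod 2 hP1 hP2
    have hnil : Group.IsNilpotent (interH (GG S × K) (VV p k J)) := by
      have : Group.IsNilpotent (GG S × K) := hP.isNilpotent
      infer_instance
    refine ⟨GG S × K, inferInstance, inferInstance, VV p k J, inferInstance, inferInstance,
      ?_, vv_pow p, ?_, ?_, hP, ?_, ?_, hnil, ?_⟩
    · rw [vv_card p (w : k) hw', Fintype.card_fin]
      congr 1
      omega
    · intro v hv
      apply faithful S p hp hp2 v
      intro g
      exact congrArg Prod.fst (hv (g, 1))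
    · rintro ⟨g, h⟩ hgh
      have e1 : g = 1 := GG.fpf p hp hp2 w hw g (fun v => congrArg Prod.fst (hgh v))
      have e2 : h = 1 := by
        refine regK (k := k) hp2 w hw (mm k N) (N + 1) hpow h (fun v => ?_)
        obtain ⟨v', rfl⟩ := psi_surj φ j0 v
        exact congrArg Prod.snd (hgh v')
      rw [e1, e2]
      rfl
    · apply derived_prod_bot
      · rw [eq_bot_iff, ← GG.derived_three (S := S)]
        exact derivedSeries_antitone _ hd
      · refine derived_bot (mm k N) (N + 1) d hpow ?_
        have h1 : 2 ^ d = 2 * N := by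
          change 2 ^ d = 2 * 2 ^ (d - 1)
          rw [← pow_succ']
          congr 1
          omega
        have h2 : 1 ≤ N := Nat.one_le_two_pow
        omega
    · exact derived_prod_ne (d - 1) (derived_not_bot (k := k) hp2 (d - 1))
    · by_contra hcon
      rw [not_lt] at hcon
      have h1 := (Subgroup.lowerCentralSeries_eq_bot_iff_nilpotencyClass_le
        (G := ↥(interH (GG S × K) (VV p k J)))).mpr hcon
      have h2 : (interH (GG S × K) (VV p k J)).lowerCentralSeries c = ⊥ := by
        rw [← Subgroup.top_subtype_lowerCentralSeries, h1, Subgroup.map_bot]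
      apply lcs_ne_bot S hS p hp hp2 c (by omega)
      rw [eq_bot_iff]
      intro x hx
      have h3 := lcs_inl (G := GG S) (K := K) (V := VV p k J) c ⟨x, hx, rfl⟩
      rw [h2, Subgroup.mem_bot] at h3
      exact congrArg Prod.fst h3
  · intro p hp n hn G _ _ V _ _ hV hVp hfix
    exact ⟨interH_le_commutator p n hp hn hV hVp hfix,
      fun hd => interH_abelian p n hp hn hV hVp hfix hd⟩

end Pool.Agent.Results.MP_e56c9f_al.EveryRank
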